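import Pool.Agent.Y811.PC.Stm4

/-!
Project PC: strictness in the triangle inequality.
-/

set_option autoImplicit false

open Complex Metric Set Filter Topology

namespace Pool.Agent.Y93.PC

open Pool.Agent.Y811.PC

section

variable {d m : ℕ} {c A : ℂ} {b β : ℕ → ℂ}

theorem gg_an {z : ℂ} (h : ∀ j, j < m → z ≠ b j) : AnalyticAt ℂ (gg m b β A) z := by
  have h1 : gg m b β A = fun z => ∑ j ∈ Finset.range m, (A / (z - b j) ^ 2 + β j / (z - b j)) :=
    rfl
  rw [h1]
  refine Finset.analyticAt_fun_sum _ fun j hj => ?_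
  have h2 : z - b j ≠ 0 := sub_ne_zero.2 (h j (Finset.mem_range.1 hj))
  have h3 : AnalyticAt ℂ (fun z : ℂ => z - b j) z := analyticAt_id.sub analyticAt_const
  exact (analyticAt_const.div (h3.pow 2) (pow_ne_zero 2 h2)).add (analyticAt_const.div h3 h2)

theorem om_prim (hd : 2 ≤ d) : IsPrimitiveRoot (om d) d :=
  Complex.isPrimitiveRoot_exp d (by omega)

theorem om_norm (hd : 2 ≤ d) : ‖om d‖ = 1 := (om_prim hd).norm'_eq_one (by omega)

theorem om_ne (hd : 2 ≤ d) : om d ≠ 0 := (om_prim hd).ne_zero (by omega)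

/-- the point `om b₀` is not in the cycle -/
theorem om_b (h : Cyc d m c b β A) (i : ℕ) : om d * b 0 ≠ b i := by
  intro e
  have h1 : b (i + 1) = b 1 := by
    rw [h.step i, ← e, mul_pow, (om_prim h.hd).pow_eq_one, one_mul, ← h.step 0]
  have h2 : ∀ t, b (i + 1 + t) = b (1 + t) := by
    intro t
    induction t with
    | zero => exact h1
    | succ t ih =>
      rw [← Nat.add_assoc, ← Nat.add_assoc, h.step, h.step, ih]
  have h3 := h2 (m - 1)
  have hm := h.hm
  have h4 : i + 1 + (m - 1) = i + m := by omega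
  have h5 : 1 + (m - 1) = 0 + m := by omega
  rw [h4, h5, h.per, h.per] at h3
  rw [h3] at e
  have h6 : om d = 1 := by
    have := mul_right_cancel₀ (h.ne 0) (e.trans (one_mul _).symm)
    exact this
  exact (om_prim h.hd).ne_one (by have := h.hd; omega) h6

/-- the local form at `b₀` -/
theorem local_form (h : Cyc d m c b β A) (hne : ¬ (A = 0 ∧ ∀ j, β j = 0)) :
    ∃ (s : ℕ) (P : ℂ → ℂ), 1 ≤ s ∧ AnalyticAt ℂ P (b 0) ∧ P (b 0) ≠ 0 ∧
      ∀ w, w ≠ b 0 → gg m b β A w * (w - b 0) ^ s = P w := by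
  have hm := h.hm
  have h0 : (0 : ℕ) ∈ Finset.range m := Finset.mem_range.2 (by omega)
  obtain ⟨r, hr⟩ : ∃ r : ℂ → ℂ, r = fun z => ∑ j ∈ (Finset.range m).erase 0,
      (A / (z - b j) ^ 2 + β j / (z - b j)) := ⟨_, rfl⟩
  have hra : AnalyticAt ℂ r (b 0) := by
    rw [hr]
    refine Finset.analyticAt_fun_sum _ fun j hj => ?_
    have hj1 := Finset.mem_erase.1 hj
    have hj2 := Finset.mem_range.1 hj1.2
    have h2 : b 0 - b j ≠ 0 := sub_ne_zero.2 fun e => hj1.1 (h.inj 0 j (by omega) hj2 e).symm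
    have h3 : AnalyticAt ℂ (fun z : ℂ => z - b j) (b 0) := analyticAt_id.sub analyticAt_const
    exact (analyticAt_const.div (h3.pow 2) (pow_ne_zero 2 h2)).add (analyticAt_const.div h3 h2)
  have hg : ∀ w, gg m b β A w = (A / (w - b 0) ^ 2 + β 0 / (w - b 0)) + r w := by
    intro w
    rw [hr]
    unfold gg
    rw [← Finset.add_sum_erase _ _ h0]
  have hi : AnalyticAt ℂ (fun w : ℂ => w - b 0) (b 0) := analyticAt_id.sub analyticAt_const
  by_cases hA : A = 0
  · have hβ : β 0 ≠ 0 := by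
      intro h1
      apply hne
      refine ⟨hA, fun j => ?_⟩
      induction j with
      | zero => exact h1
      | succ j ih => rw [h.recu, ih, hA]; simp
    refine ⟨1, fun w => β 0 + (w - b 0) * r w, le_rfl,
      analyticAt_const.add (hi.mul hra), ?_, fun w hw => ?_⟩
    · simp only [sub_self, zero_mul, add_zero]
      exact hβ
    · have h1 : w - b 0 ≠ 0 := sub_ne_zero.2 hw
      rw [hg, hA]
      field_simp
      ring
  · refine ⟨2, fun w => A + β 0 * (w - b 0) + (w - b 0) ^ 2 * r w, by norm_num,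
      (analyticAt_const.add (analyticAt_const.mul hi)).add ((hi.pow 2).mul hra), ?_,
      fun w hw => ?_⟩
    · simp only [sub_self]
      simp [hA]
    · have h1 : w - b 0 ≠ 0 := sub_ne_zero.2 hw
      rw [hg]
      field_simp

/-- `g` does not vanish identically near `om b₀` -/
theorem not_zero (h : Cyc d m c b β A) (hne : ¬ (A = 0 ∧ ∀ j, β j = 0)) :
    ¬ (gg m b β A =ᶠ[𝓝 (om d * b 0)] 0) := by
  intro h1
  have hc : IsPreconnected ((b '' (Set.Iio m))ᶜ) := by
    refine (Set.Countable.isConnected_compl_of_one_lt_rank ?_ ?_).isPreconnected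
    · rw [Complex.rank_real_complex]
      norm_num
    · exact ((Set.finite_Iio m).image b).countable
  have ha : AnalyticOnNhd ℂ (gg m b β A) ((b '' (Set.Iio m))ᶜ) := by
    intro z hz
    exact gg_an fun j hj e => hz ⟨j, hj, e.symm⟩
  have h0 : om d * b 0 ∈ (b '' (Set.Iio m))ᶜ := by
    rintro ⟨j, _, e⟩
    exact om_b h j e.symm
  have h2 := ha.eqOn_zero_of_preconnected_of_eventuallyEq_zero hc h0 h1
  obtain ⟨s, P, hs, hPa, hP0, hP⟩ := local_form h hne
  -- points near `b₀`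
  have h3 : ∀ᶠ w in 𝓝[≠] (b 0), P w ≠ 0 :=
    (hPa.continuousAt.eventually_ne hP0).filter_mono nhdsWithin_le_nhds
  have h4 : ∀ᶠ w in 𝓝[≠] (b 0), w ∈ (b '' (Set.Iio m))ᶜ := by
    have h5 : IsClosed ((b '' (Set.Iio m)) \ {b 0}) :=
      (((Set.finite_Iio m).image b).subset sdiff_subset).isClosed
    have h6 : ((b '' (Set.Iio m)) \ {b 0})ᶜ ∈ 𝓝 (b 0) :=
      h5.isOpen_compl.mem_nhds fun h7 => h7.2 rfl
    filter_upwards [mem_nhdsWithin_of_mem_nhds h6, self_mem_nhdsWithin] with w hw1 hw2 hw3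
    exact hw1 ⟨hw3, hw2⟩
  have h7 : ∀ᶠ w in 𝓝[≠] (b 0), w ≠ b 0 := self_mem_nhdsWithin
  obtain ⟨w, hw1, hw2, hw3⟩ := (h3.and (h4.and h7)).exists
  apply hw1
  rw [← hP w hw3, h2 hw2]
  simp

/-- the exceptional set -/
theorem exc_fin (h : Cyc d m c b β A) : {w : ℂ | ∃ j, j ≤ m ∧ w ^ d + c = b j}.Finite := by
  have h1 : {w : ℂ | ∃ j, j ≤ m ∧ w ^ d + c = b j} ⊆
      ⋃ j ∈ Finset.range (m + 1), ((Polynomial.nthRoots d (b j - c)).toFinset : Set ℂ) := by
    rintro w ⟨j, hj, hw⟩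
    refine mem_iUnion₂.2 ⟨j, Finset.mem_range.2 (by omega), ?_⟩
    rw [Finset.mem_coe, Multiset.mem_toFinset, Polynomial.mem_nthRoots (by have := h.hd; omega),
      ← hw]
    ring
  refine Set.Finite.subset ?_ h1
  exact Set.Finite.biUnion (Finset.finite_toSet _) fun j _ => Finset.finite_toSet _

/-- the point `w₁` -/
theorem point (h : Cyc d m c b β A) (hne : ¬ (A = 0 ∧ ∀ j, β j = 0)) :
    ∃ w : ℂ, (∀ j, j ≤ m → w ^ d + c ≠ b j) ∧
      ‖gg m b β A w + om d ^ 2 * gg m b β A (om d * w)‖ <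
        ‖gg m b β A w‖ + ‖gg m b β A (om d * w)‖ := by
  obtain ⟨s, P, hs, hPa, hP0, hP⟩ := local_form h hne
  have hQ : AnalyticAt ℂ (fun w => gg m b β A (om d * w)) (b 0) :=
    (gg_an (fun j _ => om_b h j)).fun_comp (analyticAt_const.mul analyticAt_id)
  have hi : AnalyticAt ℂ (fun w : ℂ => w - b 0) (b 0) := analyticAt_id.sub analyticAt_const
  obtain ⟨H, hH⟩ : ∃ H : ℂ → ℂ, H = fun w => (w - b 0) ^ s * gg m b β A (om d * w) * om d ^ 2 /
      P w := ⟨_, rfl⟩
  have hHa : AnalyticAt ℂ H (b 0) := by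
    rw [hH]
    exact (((hi.pow s).mul hQ).mul analyticAt_const).div hPa hP0
  have hH0 : H (b 0) = 0 := by
    rw [hH]
    simp only [sub_self]
    rw [zero_pow (by omega), zero_mul, zero_mul, zero_div]
  have hne0 : ∀ᶠ w in 𝓝 (b 0), P w ≠ 0 := hPa.continuousAt.eventually_ne hP0
  have hexc : ∀ᶠ w in 𝓝 (b 0), w ≠ b 0 → ∀ j, j ≤ m → w ^ d + c ≠ b j := by
    have h5 : IsClosed ({w : ℂ | ∃ j, j ≤ m ∧ w ^ d + c = b j} \ {b 0}) :=
      ((exc_fin h).subset sdiff_subset).isClosed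
    have h6 : ({w : ℂ | ∃ j, j ≤ m ∧ w ^ d + c = b j} \ {b 0})ᶜ ∈ 𝓝 (b 0) :=
      h5.isOpen_compl.mem_nhds fun h7 => h7.2 rfl
    filter_upwards [h6] with w hw1 hw2 j hj e
    exact hw1 ⟨⟨j, hj, e⟩, hw2⟩
  rcases hHa.eventually_constant_or_nhds_le_map_nhds with hconst | hopen
  · exfalso
    apply not_zero h hne
    rw [hH0] at hconst
    -- `Q` vanishes near `b₀`
    have h1 : ∀ᶠ w in 𝓝[≠] (b 0), gg m b β A (om d * w) = 0 := by
      filter_upwards [hconst.filter_mono nhdsWithin_le_nhds,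
        hne0.filter_mono nhdsWithin_le_nhds, self_mem_nhdsWithin] with w hw1 hw2 hw3
      rw [hH] at hw1
      have h2 : (w - b 0) ^ s * gg m b β A (om d * w) * om d ^ 2 = 0 := by
        rcases div_eq_zero_iff.1 hw1 with h3 | h3
        · exact h3
        · exact absurd h3 hw2
      rcases mul_eq_zero.1 h2 with h3 | h3
      · rcases mul_eq_zero.1 h3 with h4 | h4
        · exact absurd (sub_eq_zero.1 (pow_eq_zero_iff (by omega) |>.1 h4)) hw3
        · exact h4
      · exact absurd (pow_eq_zero_iff (by norm_num) |>.1 h3) (om_ne h.hd)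
    have h2 : ∀ᶠ w in 𝓝 (b 0), gg m b β A (om d * w) = 0 :=
      hQ.frequently_zero_iff_eventually_zero.1 h1.frequently
    have h3 : Tendsto (fun z : ℂ => (om d)⁻¹ * z) (𝓝 (om d * b 0)) (𝓝 (b 0)) := by
      have h4 : ContinuousAt (fun z : ℂ => (om d)⁻¹ * z) (om d * b 0) :=
        continuousAt_const.mul continuousAt_id
      have h5 : (om d)⁻¹ * (om d * b 0) = b 0 := inv_mul_cancel_left₀ (om_ne h.hd) _
      have h6 := h4.tendsto
      simp only [h5] at h6
      exact h6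
    filter_upwards [h3.eventually h2] with z hz
    rw [mul_inv_cancel_left₀ (om_ne h.hd)] at hz
    exact hz
  · rw [hH0] at hopen
    have h1 : {w : ℂ | P w ≠ 0 ∧ (w ≠ b 0 → ∀ j, j ≤ m → w ^ d + c ≠ b j)} ∈ 𝓝 (b 0) :=
      hne0.and hexc
    have h2 : H '' {w : ℂ | P w ≠ 0 ∧ (w ≠ b 0 → ∀ j, j ≤ m → w ^ d + c ≠ b j)} ∈ 𝓝 (0 : ℂ) :=
      hopen (image_mem_map h1)
    obtain ⟨ε, hε, hball⟩ := Metric.mem_nhds_iff.1 h2
    obtain ⟨t, ht0, ht1, ht2⟩ : ∃ t : ℝ, 0 < t ∧ t < 1 ∧ t < ε :=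
      ⟨min (ε / 2) (1 / 2), by positivity, (min_le_right _ _).trans_lt (by norm_num),
        (min_le_left _ _).trans_lt (by linarith)⟩
    have h3 : -(t : ℂ) ∈ ball (0 : ℂ) ε := by
      rw [mem_ball_zero_iff, norm_neg, Complex.norm_real, Real.norm_eq_abs, abs_of_pos ht0]
      exact ht2
    obtain ⟨w, ⟨hw1, hw2⟩, hw3⟩ := hball h3
    have hwb : w ≠ b 0 := by
      intro e
      rw [e, hH0] at hw3
      have : (t : ℂ) = 0 := by
        rw [← neg_eq_zero]
        exact hw3.symm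
      exact ht0.ne' (Complex.ofReal_eq_zero.1 this)
    refine ⟨w, hw2 hwb, ?_⟩
    have h4 := hP w hwb
    have h5 : (w - b 0) ^ s ≠ 0 := pow_ne_zero _ (sub_ne_zero.2 hwb)
    have hg0 : gg m b β A w ≠ 0 := by
      intro e
      rw [e, zero_mul] at h4
      exact hw1 h4.symm
    have h6 : om d ^ 2 * gg m b β A (om d * w) = -(t : ℂ) * gg m b β A w := by
      rw [hH] at hw3
      simp only at hw3
      rw [div_eq_iff hw1, ← h4] at hw3
      have h7 : (w - b 0) ^ s * (om d ^ 2 * gg m b β A (om d * w)) =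
          (w - b 0) ^ s * (-(t : ℂ) * gg m b β A w) := by
        linear_combination hw3
      exact mul_left_cancel₀ h5 h7
    have h8 : ‖gg m b β A (om d * w)‖ = t * ‖gg m b β A w‖ := by
      have h9 := congrArg norm h6
      rw [norm_mul, norm_pow, om_norm h.hd, one_pow, one_mul, norm_mul, norm_neg,
        Complex.norm_real, Real.norm_eq_abs, abs_of_pos ht0] at h9
      exact h9
    have h10 : gg m b β A w + om d ^ 2 * gg m b β A (om d * w) =
        ((1 - t : ℝ) : ℂ) * gg m b β A w := by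
      rw [h6]
      push_cast
      ring
    rw [h10, norm_mul, Complex.norm_real, Real.norm_eq_abs, abs_of_pos (by linarith), h8]
    have h11 : 0 < ‖gg m b β A w‖ := norm_pos_iff.2 hg0
    have h12 : 0 < t * ‖gg m b β A w‖ := mul_pos ht0 h11
    have h13 : (1 - t) * ‖gg m b β A w‖ = ‖gg m b β A w‖ - t * ‖gg m b β A w‖ := by ring
    linarith

end

/-- strictness in the triangle inequality -/
theorem t_STRICT : S_STRICT := by
  intro d m c b β A h hne
  obtain ⟨w, hw1, hw2⟩ := point h hne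
  have hd := h.hd
  have hm := h.hm
  -- no poles
  have hpole : ∀ k j, j < m → om d ^ k * w ≠ b j := by
    intro k j hj e
    apply hw1 (j + 1) (by omega)
    rw [h.step j, ← e, mul_pow, ← pow_mul, mul_comm k d, pow_mul, (om_prim hd).pow_eq_one, one_pow,
      one_mul]
  have hcont : ∀ k, ContinuousAt (fun z => gg m b β A (om d ^ k * z)) w := fun k =>
    (gg_an (hpole k)).continuousAt.comp' (continuousAt_const.mul continuousAt_id)
  have hL : ContinuousAt (fun z => ‖∑ k ∈ Finset.range d,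
      om d ^ (2 * k) * gg m b β A (om d ^ k * z)‖) w := by
    refine ContinuousAt.norm ?_
    exact tendsto_finsetSum _ fun k _ => (continuousAt_const.mul (hcont k))
  have hR : ContinuousAt (fun z => ∑ k ∈ Finset.range d, ‖gg m b β A (om d ^ k * z)‖) w :=
    tendsto_finsetSum _ fun k _ => (hcont k).norm
  -- strict inequality at `w`
  have hlt : ‖∑ k ∈ Finset.range d, om d ^ (2 * k) * gg m b β A (om d ^ k * w)‖ <
      ∑ k ∈ Finset.range d, ‖gg m b β A (om d ^ k * w)‖ := by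
    obtain ⟨n, rfl⟩ : ∃ n, d = n + 2 := ⟨d - 2, by omega⟩
    rw [Finset.sum_range_succ', Finset.sum_range_succ', Finset.sum_range_succ',
      Finset.sum_range_succ']
    simp only [zero_add, mul_zero, pow_zero, one_mul, mul_one, pow_one]
    rw [add_assoc, add_assoc]
    refine (norm_add_le _ _).trans_lt ?_
    refine add_lt_add_of_le_of_lt ?_ ?_
    · refine (norm_sum_le _ _).trans (Finset.sum_le_sum fun k _ => ?_)
      rw [norm_mul, norm_pow, om_norm hd, one_pow, one_mul]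
    · rw [add_comm, add_comm ‖gg m b β A (om (n + 2) * w)‖]
      exact hw2
  obtain ⟨γ, hγ⟩ : ∃ γ : ℝ, γ = ((∑ k ∈ Finset.range d, ‖gg m b β A (om d ^ k * w)‖) -
      ‖∑ k ∈ Finset.range d, om d ^ (2 * k) * gg m b β A (om d ^ k * w)‖) / 2 := ⟨_, rfl⟩
  have hγ0 : 0 < γ := by rw [hγ]; linarith
  have hev1 : ∀ᶠ z in 𝓝 w, ‖∑ k ∈ Finset.range d, om d ^ (2 * k) *
      gg m b β A (om d ^ k * z)‖ + γ < ∑ k ∈ Finset.range d, ‖gg m b β A (om d ^ k * z)‖ := by
    have hLγ : ContinuousAt (fun z => ‖∑ k ∈ Finset.range d, om d ^ (2 * k) *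
        gg m b β A (om d ^ k * z)‖ + γ) w := hL.add continuousAt_const
    have hval : ‖∑ k ∈ Finset.range d, om d ^ (2 * k) * gg m b β A (om d ^ k * w)‖ + γ <
        ∑ k ∈ Finset.range d, ‖gg m b β A (om d ^ k * w)‖ := by linarith
    exact hLγ.eventually_lt hR hval
  obtain ⟨j0, hj0, hmin⟩ := (Finset.range m).exists_min_image
    (fun j => ‖w ^ d + c - b j‖) ⟨0, Finset.mem_range.2 (by omega)⟩
  obtain ⟨δ₁, hδ₁⟩ : ∃ δ₁ : ℝ, δ₁ = ‖w ^ d + c - b j0‖ / 2 := ⟨_, rfl⟩
  have hj0' := Finset.mem_range.1 hj0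
  have hpos : 0 < ‖w ^ d + c - b j0‖ := norm_pos_iff.2 (sub_ne_zero.2 (hw1 j0 (by omega)))
  have hδ₁0 : 0 < δ₁ := by rw [hδ₁]; linarith
  have hev2 : ∀ᶠ z in 𝓝 w, ∀ j ∈ Finset.range m, δ₁ < ‖z ^ d + c - b j‖ := by
    rw [Filter.eventually_all_finset]
    intro j hj
    have hcj : ContinuousAt (fun z : ℂ => ‖z ^ d + c - b j‖) w :=
      (((continuousAt_id.pow d).add continuousAt_const).sub continuousAt_const).norm
    refine continuousAt_const.eventually_lt hcj ?_
    have := hmin j hj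
    rw [hδ₁]
    linarith
  obtain ⟨δ₂, hδ₂, hball⟩ := Metric.mem_nhds_iff.1 (hev1.and hev2)
  refine ⟨w, min δ₁ δ₂, γ, lt_min hδ₁0 hδ₂, hγ0, fun z hz j hj => ?_, fun z hz => ?_⟩
  · have hz' := hball (ball_subset_ball (min_le_right _ _) hz)
    exact (min_le_left _ _).trans (hz'.2 j (Finset.mem_range.2 hj)).le
  · have hz' := hball (ball_subset_ball (min_le_right _ _) hz)
    exact hz'.1.le

end Pool.Agent.Y93.PC
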